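import Pool.Agent.W724.TG.Iter
import Pool.Agent.H120R2.CliqueDefs

/-!
# The limit constants of the Turán densities with a fixed gap (helper589): densities

`TD R k δ` (gap `R` systems of `k`-sets of relative size at most `δ` on every `Fin n`) holds exactly
for `δ ≥ 1 - π(K_{k+R}^k)`.
-/

set_option autoImplicit false

open Finset Filter Topology

namespace Pool.Agent.TH589.GL

open Pool.Agent.H613T Pool.Agent.W724.TG Pool.Agent.H120R2.Clique

/-- an upper bound of the relative size is an upper bound of `1 - π` -/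
theorem dens_le {R k : ℕ} {δ : ℝ} (h : TD R k δ) : 1 - turanDensity k (k + R) ≤ δ := by
  have : 1 - δ ≤ turanDensity k (k + R) := by
    apply le_density
    intro n
    obtain ⟨T, ⟨h1, h2⟩, h3⟩ := h n
    have hcov := ex_ge_of_cover (k := k) (m := k + R) T (by
      intro X hX
      obtain ⟨Z, hZ, hZX⟩ := h2 X (subset_univ _) hX
      exact ⟨Z, hZ, (h1 Z hZ).2, hZX⟩)
    have h4 : (n.choose k : ℝ) ≤ ex n k (k + R) + T.card := by
      exact_mod_cast hcov
    linarith
  linarith

/-- there is an extremal graph -/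
theorem exists_ex (n k R : ℕ) : ∃ G : Finset (Finset (Fin n)), G ⊆ powersetCard k univ ∧
    ¬ HasClique G k (k + R) ∧ G.card = ex n k (k + R) := by
  classical
  have hemp : ¬ HasClique (∅ : Finset (Finset (Fin n))) k (k + R) := by
    rintro ⟨A, hA, hA2⟩
    have h1 : (A.powersetCard k).Nonempty := by
      rw [powersetCard_nonempty, hA]
      omega
    exact absurd (subset_empty.1 hA2) h1.ne_empty
  have hne : ((((univ : Finset (Fin n)).powersetCard k).powerset).filter
      (fun G => ¬ HasClique G k (k + R))).Nonempty :=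
    ⟨∅, mem_filter.2 ⟨mem_powerset.2 (empty_subset _), hemp⟩⟩
  obtain ⟨G, hG, he⟩ := Finset.exists_mem_eq_sup _ hne Finset.card
  rw [mem_filter, mem_powerset] at hG
  refine ⟨G, hG.1, hG.2, ?_⟩
  unfold ex
  rw [← he]

/-- the Turán density is attained from above -/
theorem density_le (k m : ℕ) {n : ℕ} (hn : k ≤ n) :
    turanDensity k m * (n.choose k : ℝ) ≤ (ex n k m : ℝ) := by
  have h1 : Tendsto (fun n : ℕ => (ex (n + k) k m : ℝ) / ((n + k).choose k : ℝ)) atTop
      (𝓝 (turanDensity k m)) := (tendsto_add_atTop_iff_nat k).2 (ratio_tendsto k m)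
  have h2 := (ratio_antitone k m).le_of_tendsto h1 (n - k)
  rw [Nat.sub_add_cancel hn] at h2
  have h3 : (0 : ℝ) < (n.choose k : ℝ) := by exact_mod_cast Nat.choose_pos hn
  rwa [le_div_iff₀ h3] at h2

theorem td_dens (R k : ℕ) : TD R k (1 - turanDensity k (k + R)) := by
  classical
  intro n
  rcases Nat.lt_or_ge n k with hn | hn
  · refine ⟨∅, ⟨by simp, ?_⟩, ?_⟩
    · intro Y _ hY
      have : Y.card ≤ n := by simpa using card_le_univ Y
      omega
    · rw [Nat.choose_eq_zero_of_lt hn]
      simp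
  · obtain ⟨G, hG1, hG2, hG3⟩ := exists_ex n k R
    refine ⟨powersetCard k univ \ G, ⟨?_, ?_⟩, ?_⟩
    · intro Z hZ
      exact mem_powersetCard.1 (mem_sdiff.1 hZ).1
    · intro Y _ hY
      by_contra hcon
      push Not at hcon
      apply hG2
      refine ⟨Y, hY, fun Z hZ => ?_⟩
      rw [mem_powersetCard] at hZ
      by_contra hZG
      exact hcon Z (mem_sdiff.2 ⟨mem_powersetCard.2 ⟨subset_univ _, hZ.2⟩, hZG⟩) hZ.1
    · rw [card_sdiff_of_subset hG1, card_powersetCard, card_univ, Fintype.card_fin, Nat.cast_sub, hG3]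
      · have := density_le k (k + R) hn
        linarith
      · have := card_le_card hG1
        rwa [card_powersetCard, card_univ, Fintype.card_fin] at this

/-- the normalised constants `c_k = C(k+R, R) (1 - π(K_{k+R}^k))` -/
noncomputable def cc (R k : ℕ) : ℝ := ((k + R).choose R : ℝ) * (1 - turanDensity k (k + R))

theorem choose_pos' (R k : ℕ) : (0 : ℝ) < ((k + R).choose R : ℝ) := by
  exact_mod_cast Nat.choose_pos (by omega)

theorem cc_le {R k : ℕ} {s : ℝ} (h : GR R k s) : cc R k ≤ s := by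
  have h1 := dens_le h
  have h2 := choose_pos' R k
  rw [le_div_iff₀ h2] at h1
  unfold cc
  linarith

theorem one_le_cc (R k : ℕ) : 1 ≤ cc R k := by
  obtain ⟨F, ⟨h1, h2⟩, h3⟩ := td_dens R k (k + R)
  obtain ⟨Z, hZ, _⟩ := h2 univ (subset_univ _) (by simp)
  have h4 : (1 : ℝ) ≤ F.card := by exact_mod_cast card_pos.2 ⟨Z, hZ⟩
  have h5 : (k + R).choose k = (k + R).choose R := by rw [Nat.choose_symm_add]
  unfold cc
  rw [h5] at h3
  linarith

theorem dens_nonneg (R k : ℕ) : 0 ≤ 1 - turanDensity k (k + R) := by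
  have h1 := one_le_cc R k
  have h2 := choose_pos' R k
  unfold cc at h1
  by_contra hcon
  push Not at hcon
  have := mul_neg_of_pos_of_neg h2 hcon
  linarith

theorem dens_le_one (R k : ℕ) : 1 - turanDensity k (k + R) ≤ 1 := dens_le (TD.trivial R k)

/-- `C(k+R,R) ≥ k^R / R!` -/
theorem choose_ge (R k : ℕ) : (k : ℝ) ^ R / (R.factorial : ℝ) ≤ ((k + R).choose R : ℝ) := by
  have h1 := Nat.pow_sub_le_descFactorial (k + R) R
  have h2 := Nat.descFactorial_eq_factorial_mul_choose (k + R) R
  rw [div_le_iff₀ (by positivity)]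
  have h3 : (k : ℕ) ^ R ≤ R.factorial * (k + R).choose R := by
    rw [← h2]
    refine le_trans (Nat.pow_le_pow_left (by omega) R) h1
  have h4 : (k : ℝ) ^ R ≤ (R.factorial : ℝ) * ((k + R).choose R : ℝ) := by exact_mod_cast h3
  linarith

end Pool.Agent.TH589.GL
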