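import Pool.Agent.TH589.GL.Dens
import Pool.Agent.W724.PS.Lim
import Pool.Agent.W724.TG.Lim

/-!
# The limit constants of the Turán densities with a fixed gap (helper589)

`cc R k = C(k+R, R) (1 - π(K_{k+R}^k))` converges as `k → ∞`, for every `R ≥ 1`: the determinant
codes of the starting library reduce all large `k` to small systems of sizes near `l = (1+δ) z`, and
for `j ≥ z` the relative sizes are at most that for `z`.
-/

set_option autoImplicit false

open Finset Filter Topology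

namespace Pool.Agent.TH589.GL

open Pool.Agent.H613T Pool.Agent.W724.TG Pool.Agent.W724.PS Pool.Agent.H120R2.Clique

/-- a bounded sequence such that each far term bounds all very far terms converges -/
theorem tendsto_of_almost {c : ℕ → ℝ} {B : ℝ} (h1 : ∀ k, 1 ≤ c k) (hB : ∀ k, c k ≤ B)
    (H : ∀ ε : ℝ, 0 < ε → ∀ᶠ z in atTop, ∀ᶠ k in atTop, c k ≤ (1 + ε) * c z + ε) :
    ∃ μ : ℝ, 1 ≤ μ ∧ Tendsto c atTop (𝓝 μ) := by
  have hbb : IsBoundedUnder (· ≥ ·) atTop c := isBoundedUnder_of ⟨1, h1⟩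
  have hba : IsBoundedUnder (· ≤ ·) atTop c := isBoundedUnder_of ⟨B, hB⟩
  have hcb : IsCoboundedUnder (· ≥ ·) atTop c := hba.isCoboundedUnder_ge
  set μ := liminf c atTop with hμ
  have hμ1 : 1 ≤ μ := le_liminf_of_le hcb (Eventually.of_forall h1)
  refine ⟨μ, hμ1, ?_⟩
  rw [Metric.tendsto_nhds]
  intro e he
  set δ : ℝ := min 1 (e / (μ + 4)) with hδ
  have hμ4 : 0 < μ + 4 := by linarith
  have hδ0 : 0 < δ := lt_min one_pos (div_pos he hμ4)
  have hδ1 : δ ≤ 1 := min_le_left _ _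
  have hδ2 : δ * (μ + 4) ≤ e := by
    have : δ ≤ e / (μ + 4) := min_le_right _ _
    rwa [le_div_iff₀ hμ4] at this
  have ev1 : ∀ᶠ k in atTop, μ - δ < c k :=
    eventually_lt_of_lt_liminf (by linarith) hbb
  have fr : ∃ᶠ k in atTop, c k < μ + δ := frequently_lt_of_liminf_lt hcb (by linarith)
  obtain ⟨z, hz1, hz2⟩ := (fr.and_eventually (H δ hδ0)).exists
  filter_upwards [ev1, hz2] with k hk1 hk2
  rw [Real.dist_eq, abs_lt]
  constructor
  · nlinarith
  · have : (1 + δ) * c z ≤ (1 + δ) * (μ + δ) := mul_le_mul_of_nonneg_left hz1.le (by linarith)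
    nlinarith

/-- the first smallness condition -/
theorem small1 {δ κ : ℝ} (hδ : 0 < δ) (hκ : 0 < κ) (i : ℕ) :
    ∀ᶠ z : ℕ in atTop, ((1 + δ) * (z : ℝ)) ^ i / (i.factorial : ℝ) *
      Real.exp (-((1 + δ) * (z : ℝ))) ≤ κ := by
  have h1 : Tendsto (fun z : ℕ => (1 + δ) * (z : ℝ)) atTop atTop :=
    Tendsto.const_mul_atTop (by linarith) tendsto_natCast_atTop_atTop
  have h2 := (Real.tendsto_pow_mul_exp_neg_atTop_nhds_zero i).comp h1
  filter_upwards [h2.eventually_lt_const hκ] with z hz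
  simp only [Function.comp_apply] at hz
  have h3 : (1 : ℝ) ≤ (i.factorial : ℝ) := by exact_mod_cast Nat.succ_le_of_lt (Nat.factorial_pos i)
  have h4 : 0 ≤ ((1 + δ) * (z : ℝ)) ^ i := by positivity
  have h5 : ((1 + δ) * (z : ℝ)) ^ i / (i.factorial : ℝ) ≤ ((1 + δ) * (z : ℝ)) ^ i :=
    div_le_self h4 h3
  have h6 := mul_le_mul_of_nonneg_right h5 (Real.exp_pos (-((1 + δ) * (z : ℝ)))).le
  linarith

/-- the lower tail of the Poisson distribution -/
theorem tail (δ : ℝ) (hδ : 0 < δ) (z : ℕ) :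
    Real.exp (-((1 + δ) * (z : ℝ))) * ∑ j ∈ range z, ((1 + δ) * (z : ℝ)) ^ j / (j.factorial : ℝ) ≤
      ((1 + δ) * Real.exp (-δ)) ^ z := by
  have h1 : ∑ j ∈ range z, ((1 + δ) * (z : ℝ)) ^ j / (j.factorial : ℝ) ≤
      (1 + δ) ^ z * Real.exp z := by
    calc ∑ j ∈ range z, ((1 + δ) * (z : ℝ)) ^ j / (j.factorial : ℝ)
        ≤ ∑ j ∈ range z, (1 + δ) ^ z * ((z : ℝ) ^ j / (j.factorial : ℝ)) := by
          refine sum_le_sum fun j hj => ?_
          rw [mul_pow, mul_div_assoc]
          have : (1 + δ) ^ j ≤ (1 + δ) ^ z := pow_le_pow_right₀ (by linarith) (mem_range.1 hj).le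
          gcongr
      _ = (1 + δ) ^ z * ∑ j ∈ range z, ((z : ℝ) ^ j / (j.factorial : ℝ)) := by rw [mul_sum]
      _ ≤ _ := mul_le_mul_of_nonneg_left (Real.sum_le_exp_of_nonneg (Nat.cast_nonneg z) z)
          (by positivity)
  have h2 : ((1 + δ) * Real.exp (-δ)) ^ z = Real.exp (-((1 + δ) * (z : ℝ))) *
      ((1 + δ) ^ z * Real.exp z) := by
    rw [mul_pow, ← Real.exp_nat_mul]
    have : Real.exp (-((1 + δ) * (z : ℝ))) * Real.exp z = Real.exp ((z : ℝ) * -δ) := by
      rw [← Real.exp_add]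
      congr 1
      ring
    rw [← this]
    ring
  rw [h2]
  exact mul_le_mul_of_nonneg_left h1 (Real.exp_pos _).le

theorem small2 {δ κ : ℝ} (hδ : 0 < δ) (hκ : 0 < κ) (R : ℕ) :
    ∀ᶠ z : ℕ in atTop, ((1 + δ) * (z : ℝ)) ^ R / (R.factorial : ℝ) *
      (Real.exp (-((1 + δ) * (z : ℝ))) *
        ∑ j ∈ range z, ((1 + δ) * (z : ℝ)) ^ j / (j.factorial : ℝ)) ≤ κ := by
  have hg0 : 0 < (1 + δ) * Real.exp (-δ) := by positivity
  have hg1 : (1 + δ) * Real.exp (-δ) < 1 := by
    have h1 : δ + 1 < Real.exp δ := Real.add_one_lt_exp hδ.ne'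
    rw [Real.exp_neg, ← div_eq_mul_inv, div_lt_one (Real.exp_pos _)]
    linarith
  have h2 := tendsto_pow_const_mul_const_pow_of_abs_lt_one R
    (r := (1 + δ) * Real.exp (-δ)) (by rw [abs_of_pos hg0]; exact hg1)
  have h3 := h2.const_mul ((1 + δ) ^ R)
  rw [mul_zero] at h3
  filter_upwards [h3.eventually_lt_const hκ] with z hz
  have h4 := tail δ hδ z
  have h5 : (1 : ℝ) ≤ (R.factorial : ℝ) := by exact_mod_cast Nat.succ_le_of_lt (Nat.factorial_pos R)
  have h6 : 0 ≤ ((1 + δ) * (z : ℝ)) ^ R := by positivity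
  have h7 : ((1 + δ) * (z : ℝ)) ^ R / (R.factorial : ℝ) ≤ ((1 + δ) * (z : ℝ)) ^ R :=
    div_le_self h6 h5
  refine le_trans (mul_le_mul h7 h4 (by positivity) h6) (le_trans (le_of_eq ?_) hz.le)
  rw [mul_pow]
  ring

/-- the main step -/
theorem step {R : ℕ} (hR : 1 ≤ R) {ε : ℝ} (hε : 0 < ε) :
    ∀ᶠ z in atTop, ∀ᶠ k in atTop, cc R k ≤ (1 + ε) * cc R z + ε := by
  choose s hs0 hs1 hs using exists_bound
  -- the choice of `δ`
  obtain ⟨δ, hδ0, hδ1, hδε⟩ : ∃ δ : ℝ, 0 < δ ∧ δ < 1 / 12 ∧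
      (1 / (1 - 6 * δ) ^ R) * (1 + δ) ^ R ≤ 1 + ε := by
    have h1 : Tendsto (fun δ : ℝ => (1 / (1 - 6 * δ) ^ R) * (1 + δ) ^ R) (𝓝[>] 0)
        (𝓝 ((1 / (1 - 6 * 0) ^ R) * (1 + 0) ^ R)) := by
      apply Tendsto.mono_left _ nhdsWithin_le_nhds
      have : ContinuousAt (fun δ : ℝ => (1 / (1 - 6 * δ) ^ R) * (1 + δ) ^ R) 0 := by
        apply ContinuousAt.mul
        · apply ContinuousAt.div continuousAt_const (by fun_prop)
          norm_num
        · fun_prop
      exact this.tendsto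
    have h2 : (1 / (1 - 6 * (0 : ℝ)) ^ R) * (1 + 0) ^ R < 1 + ε := by
      norm_num
      exact hε
    have h3 : ∀ᶠ δ : ℝ in 𝓝[>] 0, δ ∈ Set.Ioo (0 : ℝ) (1 / 12) :=
      Ioo_mem_nhdsGT (by norm_num)
    obtain ⟨δ, h4, h5⟩ := ((h1.eventually_lt_const h2).and h3).exists
    exact ⟨δ, h5.1, h5.2, h4.le⟩
  set α : ℝ := 1 - 6 * δ with hα
  set β : ℝ := 2 * δ with hβ
  have hα0 : 0 < α := by linarith
  have hβ0 : 0 < β := by linarith
  set B : ℝ := s R with hB
  have hBc : ∀ k, cc R k ≤ B := fun k => cc_le (hs R k)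
  have hB0 : 0 ≤ B := hs0 R
  -- the constant of the lower order terms
  set K' : ℝ := ∑ i ∈ range R, kap R α β (i + 1) * s (R - (i + 1)) with hK'
  have hkap : ∀ i, 0 ≤ kap R α β i := by
    intro i
    unfold kap
    positivity
  have hK'0 : 0 ≤ K' := sum_nonneg fun i _ => mul_nonneg (hkap _) (hs0 _)
  have hαR : 0 < 1 / α ^ R := by positivity
  -- the choice of `κ`
  set M : ℝ := 2 * (1 / α ^ R) + 2 * K' + (2 / β ^ R) * ((1 + ε) * B + ε) + 2 / β ^ R + 1 with hM
  have hM0 : 0 < M := by positivity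
  set κ : ℝ := min 1 ε / (2 * M) with hκ
  have hκ0 : 0 < κ := by positivity
  have hκM : κ * M < min 1 ε := by
    have : κ * M = min 1 ε / 2 := by rw [hκ]; field_simp
    rw [this]
    have : 0 < min 1 ε := lt_min one_pos hε
    linarith
  have hκε : κ * M < ε := hκM.trans_le (min_le_right _ _)
  have hκ1 : κ * M < 1 := hκM.trans_le (min_le_left _ _)
  have ev1 : ∀ᶠ z : ℕ in atTop, ∀ i ∈ range (R + 1), ((1 + δ) * (z : ℝ)) ^ i / (i.factorial : ℝ) *
      Real.exp (-((1 + δ) * (z : ℝ))) ≤ κ :=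
    (Filter.eventually_all_finset _).2 fun i _ => small1 hδ0 hκ0 i
  filter_upwards [ev1, small2 hδ0 hκ0 R, eventually_ge_atTop 1] with z hz1 hz2 hz3
  set l : ℝ := (1 + δ) * (z : ℝ) with hl
  have hz0 : (0 : ℝ) < z := by exact_mod_cast hz3
  have hl0 : 0 < l := by positivity
  set τ : ℝ := 1 - turanDensity z (z + R) with hτ
  have hτ0 : 0 ≤ τ := dens_nonneg R z
  have hτ1 : τ ≤ 1 := dens_le_one R z
  set t : ℕ → ℝ := fun j => if j < z then 1 else τ with ht
  have htd : ∀ j, TD R j (t j) := by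
    intro j
    simp only [ht]
    split_ifs with hj
    · exact TD.trivial R j
    · exact (td_dens R z).of_le (by omega)
  have htτ : ∀ j, τ ≤ t j := by
    intro j
    simp only [ht]
    split_ifs
    · exact hτ1
    · exact le_rfl
  have htJ : ∀ j ≥ z, t j = τ := by
    intro j hj
    simp only [ht]
    rw [if_neg (by omega)]
  obtain ⟨D₀, hD₀⟩ := PG_eventually (R := R) hl0 htd hτ0 htτ htJ hκ0
  -- the bounds of the partial costs
  set p : ℕ → ℝ := fun i => pl R t τ z l i + κ with hp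
  have hsum0 : 0 ≤ ∑ j ∈ range z, l ^ j / (j.factorial : ℝ) := sum_nonneg fun j _ => by positivity
  have hEE : EE t τ z l ≤ τ + Real.exp (-l) * ∑ j ∈ range z, l ^ j / (j.factorial : ℝ) := by
    unfold EE
    have : ∑ j ∈ range z, (t j - τ) * l ^ j / (j.factorial : ℝ) ≤
        ∑ j ∈ range z, l ^ j / (j.factorial : ℝ) := by
      refine sum_le_sum fun j hj => ?_
      have h1 : t j - τ ≤ 1 := by
        simp only [ht]
        rw [if_pos (mem_range.1 hj)]
        linarith
      have h2 : 0 ≤ l ^ j / (j.factorial : ℝ) := by positivity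
      rw [mul_div_assoc]
      calc (t j - τ) * (l ^ j / (j.factorial : ℝ)) ≤ 1 * (l ^ j / (j.factorial : ℝ)) :=
            mul_le_mul_of_nonneg_right h1 h2
        _ = _ := one_mul _
    have := mul_le_mul_of_nonneg_left this (Real.exp_pos (-l)).le
    linarith
  have hEE0 : 0 ≤ EE t τ z l := by
    unfold EE
    have h1 : 0 ≤ ∑ j ∈ range z, (t j - τ) * l ^ j / (j.factorial : ℝ) := by
      refine Finset.sum_nonneg fun j _ => ?_
      have := sub_nonneg.2 (htτ j)
      positivity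
    have h2 := Real.exp_pos (-l)
    positivity
  have hp0 : ∀ i, 0 ≤ p i := by
    intro i
    simp only [hp]
    unfold pl
    have h2 := Real.exp_pos (-l)
    split_ifs <;> positivity
  have hplow : ∀ i < R, p i ≤ 2 * κ := by
    intro i hi
    simp only [hp]
    unfold pl
    rw [if_neg (by omega)]
    have := hz1 i (mem_range.2 (by omega))
    linarith
  have hpR : p R ≤ (1 + δ) ^ R * cc R z + 2 * κ := by
    simp only [hp]
    unfold pl
    rw [if_pos rfl]
    have h1 : l ^ R / (R.factorial : ℝ) * EE t τ z l ≤ l ^ R / (R.factorial : ℝ) * τ +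
        l ^ R / (R.factorial : ℝ) * (Real.exp (-l) * ∑ j ∈ range z, l ^ j / (j.factorial : ℝ)) := by
      rw [← mul_add]
      exact mul_le_mul_of_nonneg_left hEE (by positivity)
    have h2 : l ^ R / (R.factorial : ℝ) * τ ≤ (1 + δ) ^ R * cc R z := by
      have h3 := choose_ge R z
      have h4 := mul_le_mul_of_nonneg_right h3 hτ0
      have h5 : l ^ R / (R.factorial : ℝ) * τ = (1 + δ) ^ R * ((z : ℝ) ^ R / (R.factorial : ℝ) * τ) := by
        rw [hl, mul_pow]
        ring
      rw [h5]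
      exact mul_le_mul_of_nonneg_left h4 (by positivity)
    linarith
  set T : ℝ := (1 + ε) * cc R z + ε with hT
  have hccz : cc R z ≤ B := hBc z
  have hccz1 : 1 ≤ cc R z := one_le_cc R z
  set ρ : ℝ := 2 * κ / β ^ R with hρ
  have hβR : 0 < β ^ R := by positivity
  have hρ0 : 0 ≤ ρ := by positivity
  have hρM : ρ = κ * (2 / β ^ R) := by rw [hρ]; ring
  have hρ1 : ρ < 1 := by
    refine lt_of_le_of_lt ?_ hκ1
    rw [hρM]
    apply mul_le_mul_of_nonneg_left _ hκ0.le
    have : 0 ≤ (2 / β ^ R) * ((1 + ε) * B + ε) := by positivity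
    linarith
  have hmain := W724.TG.asymptotic hR (a := 1 - 4 * δ) (b := 4 * δ) (δ := δ) (by ring) hδ0
    (by linarith) (by linarith) (p := p) (s := s) hp0 hs0 (D₀ := D₀) hD₀
    (fun g _ m _ => hs g m) (ρ := ρ) (T := T) (by
      have : (4 * δ - 2 * δ : ℝ) = β := by rw [hβ]; ring
      rw [this, hρ]
      exact div_le_div_of_nonneg_right (hplow 0 (by omega)) hβR.le) hρ1 (by
      have e1 : (1 - 4 * δ - 2 * δ : ℝ) = α := by rw [hα]; ring
      have e2 : (4 * δ - 2 * δ : ℝ) = β := by rw [hβ]; ring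
      rw [e1, e2]
      have hCR : CR R α β p s ≤ (1 / α ^ R) * ((1 + δ) ^ R * cc R z + 2 * κ) + 2 * κ * K' := by
        unfold CR
        obtain ⟨R', rfl⟩ : ∃ R', R = R' + 1 := ⟨R - 1, by omega⟩
        rw [sum_range_succ]
        have f1 : kap (R' + 1) α β (R' + 1) * p (R' + 1) * s (R' + 1 - (R' + 1)) ≤
            (1 / α ^ (R' + 1)) * ((1 + δ) ^ (R' + 1) * cc (R' + 1) z + 2 * κ) := by
          have g1 : kap (R' + 1) α β (R' + 1) = 1 / α ^ (R' + 1) := by
            unfold kap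
            simp
          have g2 : s (R' + 1 - (R' + 1)) = 1 := by
            rw [Nat.sub_self]
            exact hs1 0 rfl
          rw [g1, g2, mul_one]
          exact mul_le_mul_of_nonneg_left hpR hαR.le
        have f2 : ∑ i ∈ range R', kap (R' + 1) α β (i + 1) * p (i + 1) * s (R' + 1 - (i + 1)) ≤
            2 * κ * K' := by
          calc ∑ i ∈ range R', kap (R' + 1) α β (i + 1) * p (i + 1) * s (R' + 1 - (i + 1))
              ≤ ∑ i ∈ range R', 2 * κ * (kap (R' + 1) α β (i + 1) * s (R' + 1 - (i + 1))) := by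
                refine sum_le_sum fun i hi => ?_
                have q1 := hplow (i + 1) (by have := mem_range.1 hi; omega)
                have q2 := hkap (i + 1)
                have q3 := hs0 (R' + 1 - (i + 1))
                have q4 : kap (R' + 1) α β (i + 1) * p (i + 1) * s (R' + 1 - (i + 1)) ≤
                    kap (R' + 1) α β (i + 1) * (2 * κ) * s (R' + 1 - (i + 1)) := by
                  gcongr
                linarith
            _ = 2 * κ * ∑ i ∈ range R', kap (R' + 1) α β (i + 1) * s (R' + 1 - (i + 1)) := by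
                rw [mul_sum]
            _ ≤ 2 * κ * K' := by
                apply mul_le_mul_of_nonneg_left _ (by linarith)
                rw [hK', sum_range_succ]
                have : 0 ≤ kap (R' + 1) α β (R' + 1) * s (R' + 1 - (R' + 1)) :=
                  mul_nonneg (hkap _) (hs0 _)
                linarith
        linarith
      have h1 : (1 / α ^ R) * ((1 + δ) ^ R * cc R z) ≤ (1 + ε) * cc R z := by
        rw [← mul_assoc]
        exact mul_le_mul_of_nonneg_right hδε (by linarith)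
      have hTB : T ≤ (1 + ε) * B + ε := by
        rw [hT]
        have := mul_le_mul_of_nonneg_left hccz (by linarith : (0 : ℝ) ≤ 1 + ε)
        linarith
      have h2 : T * ρ ≤ ((1 + ε) * B + ε) * ρ := mul_le_mul_of_nonneg_right hTB hρ0
      have h3 : κ * M = 2 * κ * (1 / α ^ R) + 2 * κ * K' + ((1 + ε) * B + ε) * ρ + ρ + κ := by
        rw [hM, hρM]
        ring
      have h4 : (1 / α ^ R) * ((1 + δ) ^ R * cc R z + 2 * κ) + 2 * κ * K' ≤
          (1 + ε) * cc R z + 2 * κ * (1 / α ^ R) + 2 * κ * K' := by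
        rw [mul_add]
        linarith
      have h5 : T * (1 - ρ) = (1 + ε) * cc R z + ε - T * ρ := by rw [hT]; ring
      rw [h5]
      linarith)
  obtain ⟨K, hK⟩ := hmain
  filter_upwards [eventually_ge_atTop K] with k hk
  exact cc_le (hK k hk)

/-- **the limit exists** -/
theorem limit_exists {R : ℕ} (hR : 1 ≤ R) : ∃ μ : ℝ, 1 ≤ μ ∧ Tendsto (cc R) atTop (𝓝 μ) := by
  obtain ⟨s, _, _, hs⟩ := exists_bound R
  exact tendsto_of_almost (one_le_cc R) (fun k => cc_le (hs k)) fun ε hε => step hR hε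

end Pool.Agent.TH589.GL
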